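import Pool.Agent.Results.MP_0b0f5a_al.LowerBounds
import Pool.Agent.Y36.SG.Square

set_option autoImplicit false

/-!
# Lower bounds for the Folner functions of all finitely generated groups containing `G_ω`
-/

namespace Pool.Agent.Results.MP_0b0f5a_al.AllOvergroups

open Pool.Agent.Results.MP_0b0f5a_al.LowerBounds Pool.Agent.Y36.SG

section
variable {Γ : Type} [Group Γ]

/-- `|sE △ E| / |E| < 1 / n` for all `s ∈ S` -/
def IsFol (S : Set Γ) (n : ℕ) (E : Set Γ) : Prop :=
  ∀ s ∈ S, ((symmDiff ((fun x => s * x) '' E) E).ncard : ℝ) / (E.ncard : ℝ) < 1 / (n : ℝ)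

/-- `|gE △ E|` -/
noncomputable def dis (g : Γ) (E : Set Γ) : ℕ := (symmDiff ((fun x => g * x) '' E) E).ncard

theorem mem_dis (g : Γ) (E : Set Γ) (x : Γ) : x ∈ symmDiff ((fun x => g * x) '' E) E ↔
    (g⁻¹ * x ∈ E ∧ x ∉ E) ∨ (x ∈ E ∧ g⁻¹ * x ∉ E) := by
  have h : x ∈ (fun x => g * x) '' E ↔ g⁻¹ * x ∈ E := by
    constructor
    · rintro ⟨y, hy, rfl⟩
      simpa using hy
    · intro h
      exact ⟨g⁻¹ * x, h, by simp⟩
  rw [Set.mem_symmDiff, h]

theorem dis_finite {E : Set Γ} (hE : E.Finite) (g : Γ) :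
    (symmDiff ((fun x => g * x) '' E) E).Finite := by
  refine ((hE.image (fun x => g * x)).union hE).subset ?_
  intro x hx
  rcases Set.mem_symmDiff.1 hx with h | h
  · exact Or.inl h.1
  · exact Or.inr h.1

theorem dis_mul {E : Set Γ} (hE : E.Finite) (g h : Γ) : dis (g * h) E ≤ dis h E + dis g E := by
  have h1 : symmDiff ((fun x => g * h * x) '' E) E ⊆
      (fun x => g * x) '' (symmDiff ((fun x => h * x) '' E) E) ∪
        symmDiff ((fun x => g * x) '' E) E := by
    intro x hx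
    rw [mem_dis] at hx
    have e : (g * h)⁻¹ * x = h⁻¹ * (g⁻¹ * x) := by group
    rw [e] at hx
    have e2 : x = g * (g⁻¹ * x) := by group
    by_cases hg : g⁻¹ * x ∈ E
    · rcases hx with hx | hx
      · right
        rw [mem_dis]
        exact Or.inl ⟨hg, hx.2⟩
      · left
        refine ⟨g⁻¹ * x, ?_, e2.symm⟩
        rw [mem_dis]
        exact Or.inr ⟨hg, hx.2⟩
    · rcases hx with hx | hx
      · left
        refine ⟨g⁻¹ * x, ?_, e2.symm⟩
        rw [mem_dis]
        exact Or.inl ⟨hx.1, hg⟩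
      · right
        rw [mem_dis]
        exact Or.inr ⟨hx.1, hg⟩
  unfold dis
  refine (Set.ncard_le_ncard h1 (((dis_finite hE h).image _).union (dis_finite hE g))).trans ?_
  refine (Set.ncard_union_le _ _).trans ?_
  rw [Set.ncard_image_of_injective _ (mul_right_injective g)]

theorem dis_inv {E : Set Γ} (g : Γ) : dis g⁻¹ E = dis g E := by
  unfold dis
  rw [← Set.ncard_image_of_injective (symmDiff ((fun x => g⁻¹ * x) '' E) E)
    (mul_right_injective g)]
  congr 1
  ext x
  constructor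
  · rintro ⟨y, hy, rfl⟩
    rw [mem_dis] at hy ⊢
    simp only [inv_inv, inv_mul_cancel_left] at hy ⊢
    tauto
  · intro hx
    rw [mem_dis] at hx
    refine ⟨g⁻¹ * x, ?_, by simp⟩
    rw [mem_dis]
    simp only [inv_inv, mul_inv_cancel_left]
    tauto

theorem dis_one {E : Set Γ} : dis 1 E = 0 := by
  unfold dis
  have h : symmDiff ((fun x => 1 * x) '' E) E = ∅ := by
    ext x
    rw [mem_dis]
    simp
  rw [h, Set.ncard_empty]

theorem dis_le {S : Set Γ} (hS : Subgroup.closure S = ⊤) {E : Set Γ} (hE : E.Finite) (M : ℝ)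
    (hM : ∀ s ∈ S, (dis s E : ℝ) ≤ M) (g : Γ) : (dis g E : ℝ) ≤ wlen S g * M := by
  obtain ⟨l, h1, h2, h3⟩ := exists_geod hS g
  rw [← h1, ← h3]
  clear h1 h3
  induction l with
  | nil => simp [dis_one]
  | cons s l ih =>
    have h4 := ih fun x hx => h2 x (by simp [hx])
    have h5 : (dis s E : ℝ) ≤ M := by
      rcases h2 s (by simp) with h | h
      · exact hM s h
      · rw [← dis_inv]; exact hM _ h
    have h6 : (dis (s * l.prod) E : ℝ) ≤ dis l.prod E + dis s E := by
      exact_mod_cast dis_mul hE s l.prod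
    rw [List.prod_cons, List.length_cons]
    push_cast
    linarith

/-- The representative of a right coset. -/
noncomputable def rr (H : Subgroup Γ) (x : Γ) : Γ :=
  (Quotient.mk (QuotientGroup.rightRel H) x).out

theorem rr_mem (H : Subgroup Γ) (x : Γ) : x * (rr H x)⁻¹ ∈ H := by
  have h : (QuotientGroup.rightRel H) (rr H x) x := Quotient.mk_out x
  exact QuotientGroup.rightRel_apply.1 h

theorem rr_mul (H : Subgroup Γ) {h : Γ} (hh : h ∈ H) (x : Γ) : rr H (h * x) = rr H x := by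
  unfold rr
  congr 1
  refine Quotient.sound ?_
  refine QuotientGroup.rightRel_apply.2 ?_
  have e : x * (h * x)⁻¹ = h⁻¹ := by group
  rw [e]
  exact inv_mem hh

/-- **A piece of a Folner set in a subgroup.** -/
theorem piece {Δ : Type} [Group Δ] (ι : Δ →* Γ) (hι : Function.Injective ι) (T : Finset Δ)
    {S : Set Γ} (hS : Subgroup.closure S = ⊤) (K : ℕ)
    (hK : ∀ t ∈ T, wlen S (ι t) ≤ K) {n m : ℕ} (hm : 1 ≤ m)
    (hn : (T.card * K + 1) * m ≤ n) {E : Set Γ} (hE : E.Finite) (hne : E.Nonempty)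
    (hfol : IsFol S n E) :
    ∃ F : Set Δ, F.Finite ∧ F.Nonempty ∧ F.ncard ≤ E.ncard ∧
      ∀ t ∈ T, ((symmDiff ((fun x => t * x) '' F) F).ncard : ℝ) / (F.ncard : ℝ) < 1 / (m : ℝ) := by
  classical
  set H : Subgroup Γ := ι.range with hH
  set A : Finset Γ := hE.toFinset with hA
  have hAmem : ∀ x, x ∈ A ↔ x ∈ E := fun x => hE.mem_toFinset
  set R : Finset Γ := A.image (rr H) with hR
  have hAcard : A.card = E.ncard := (Set.ncard_eq_toFinset_card E hE).symm
  have hApos : 0 < A.card := by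
    obtain ⟨x, hx⟩ := hne
    exact Finset.card_pos.2 ⟨x, (hAmem x).2 hx⟩
  -- the pieces
  let F : Γ → Set Δ := fun r => {g | ι g * r ∈ E}
  have hinj : ∀ r, Function.Injective fun g : Δ => ι g * r := fun r a b hab =>
    hι (mul_right_cancel hab)
  have hFfin : ∀ r, (F r).Finite := fun r => hE.preimage ((hinj r).injOn)
  have hrr : ∀ r ∈ R, ∀ x, rr H x = r → ∃ g : Δ, ι g * r = x := by
    intro r _ x hx
    obtain ⟨g, hg⟩ := rr_mem H x
    exact ⟨g, by rw [hg, hx]; group⟩
  have hself : ∀ r ∈ R, ∀ g : Δ, rr H (ι g * r) = r := by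
    intro r hr g
    obtain ⟨x, -, rfl⟩ := Finset.mem_image.1 hr
    rw [rr_mul H ⟨g, rfl⟩]
    obtain ⟨y, hy⟩ := rr_mem H x
    have h1 : x = ι y * rr H x := by rw [hy]; group
    have h2 : rr H x = ι y⁻¹ * x := by rw [map_inv, hy]; group
    conv_lhs => rw [h2]
    exact rr_mul H ⟨y⁻¹, rfl⟩ x
  have hFcard : ∀ r ∈ R, (F r).ncard = (A.filter fun x => rr H x = r).card := by
    intro r hr
    rw [← Set.ncard_image_of_injective _ (hinj r), ← Set.ncard_coe_finset]
    congr 1
    ext x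
    rw [Finset.mem_coe, Finset.mem_filter, hAmem]
    constructor
    · rintro ⟨g, hg, rfl⟩
      exact ⟨hg, hself r hr g⟩
    · rintro ⟨hx, hxr⟩
      obtain ⟨g, rfl⟩ := hrr r hr x hxr
      exact ⟨g, hx, rfl⟩
  have hsumA : ∑ r ∈ R, (F r).ncard = A.card := by
    rw [Finset.sum_congr rfl hFcard]
    exact (Finset.card_eq_sum_card_fiberwise fun x hx => Finset.mem_image_of_mem _ hx).symm
  have hdis : ∀ t : Δ, ∑ r ∈ R, dis t (F r) ≤ dis (ι t) E := by
    intro t
    set D : Finset Γ := (dis_finite hE (ι t)).toFinset with hD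
    have hDmem : ∀ x, x ∈ D ↔ (ι t)⁻¹ * x ∈ E ∧ x ∉ E ∨ x ∈ E ∧ (ι t)⁻¹ * x ∉ E := fun x => by
      rw [hD, Set.Finite.mem_toFinset, mem_dis]
    have h1 : dis (ι t) E = D.card := Set.ncard_eq_toFinset_card _ _
    have h2 : ∀ r ∈ R, dis t (F r) ≤ (D.filter fun x => rr H x = r).card := by
      intro r hr
      unfold dis
      rw [← Set.ncard_image_of_injective _ (hinj r), ← Set.ncard_coe_finset]
      refine Set.ncard_le_ncard ?_ (Finset.finite_toSet _)
      rintro _ ⟨g, hg, rfl⟩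
      rw [mem_dis] at hg
      rw [Finset.mem_coe, Finset.mem_filter, hDmem]
      refine ⟨?_, hself r hr g⟩
      have e : (ι t)⁻¹ * (ι g * r) = ι (t⁻¹ * g) * r := by rw [map_mul, map_inv]; group
      rw [e]
      exact hg
    rw [h1]
    refine (Finset.sum_le_sum h2).trans (le_of_eq ?_)
    refine (Finset.card_eq_sum_card_fiberwise fun x hx => ?_).symm
    rcases (hDmem x).1 hx with h | h
    · have h3 : rr H x = rr H ((ι t)⁻¹ * x) :=
        (rr_mul H (inv_mem ⟨t, rfl⟩) x).symm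
      rw [Finset.mem_coe, h3]
      exact Finset.mem_image_of_mem _ ((hAmem _).2 h.1)
    · exact Finset.mem_image_of_mem _ ((hAmem _).2 h.1)
  -- the pigeonhole
  have hnpos : 0 < n := lt_of_lt_of_le (by positivity) hn
  have hM : ∀ s ∈ S, (dis s E : ℝ) ≤ (A.card : ℝ) / n := by
    intro s hs
    have h1 := hfol s hs
    have h2 : (0 : ℝ) < E.ncard := by rw [← hAcard]; exact_mod_cast hApos
    have h3 : (0 : ℝ) < n := by exact_mod_cast hnpos
    rw [div_lt_div_iff₀ h2 h3] at h1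
    rw [le_div_iff₀ h3, hAcard]
    unfold dis
    linarith
  by_contra hcon
  push Not at hcon
  have h1 : ∀ r ∈ R, (F r).ncard ≤ m * ∑ t ∈ T, dis t (F r) := by
    intro r hr
    rcases (F r).eq_empty_or_nonempty with h0 | h0
    · rw [h0, Set.ncard_empty]; exact Nat.zero_le _
    · have hle : (F r).ncard ≤ E.ncard := by
        rw [← hAcard, hFcard r hr]
        exact Finset.card_filter_le _ _
      obtain ⟨t, ht, h2⟩ := hcon (F r) (hFfin r) h0 hle
      have h3 : (0 : ℝ) < (F r).ncard := by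
        exact_mod_cast (Set.ncard_pos (hFfin r)).2 h0
      have h4 : (0 : ℝ) < m := by exact_mod_cast hm
      rw [div_le_div_iff₀ h4 h3] at h2
      have h5 : (F r).ncard ≤ m * dis t (F r) := by
        have : ((F r).ncard : ℝ) ≤ m * (dis t (F r) : ℝ) := by
          unfold dis
          linarith
        exact_mod_cast this
      exact h5.trans (Nat.mul_le_mul_left m
        (Finset.single_le_sum (f := fun t => dis t (F r)) (fun _ _ => Nat.zero_le _) ht))
  have h2 : A.card ≤ m * ∑ t ∈ T, dis (ι t) E := by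
    rw [← hsumA]
    refine (Finset.sum_le_sum h1).trans ?_
    rw [← Finset.mul_sum, Finset.sum_comm]
    exact Nat.mul_le_mul_left m (Finset.sum_le_sum fun t _ => hdis t)
  have hMn : (0 : ℝ) ≤ (A.card : ℝ) / n := by positivity
  have h3 : ∀ t ∈ T, (dis (ι t) E : ℝ) ≤ K * ((A.card : ℝ) / n) := by
    intro t ht
    refine (dis_le hS hE _ hM (ι t)).trans ?_
    have : (wlen S (ι t) : ℝ) ≤ K := by exact_mod_cast hK t ht
    exact mul_le_mul_of_nonneg_right this hMn
  have h4 : (A.card : ℝ) ≤ m * (T.card * (K * ((A.card : ℝ) / n))) := by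
    have h5 : (A.card : ℝ) ≤ m * ∑ t ∈ T, (dis (ι t) E : ℝ) := by exact_mod_cast h2
    refine h5.trans (mul_le_mul_of_nonneg_left ?_ (Nat.cast_nonneg m))
    refine (Finset.sum_le_sum h3).trans (le_of_eq ?_)
    rw [Finset.sum_const, nsmul_eq_mul]
  have h5 : (0 : ℝ) < A.card := by exact_mod_cast hApos
  have h6 : (0 : ℝ) < n := by exact_mod_cast hnpos
  have h7 : ((T.card * K + 1) * m : ℝ) ≤ n := by exact_mod_cast hn
  have h8 : (n : ℝ) ≤ m * T.card * K := by
    have h9 : m * (T.card * (K * ((A.card : ℝ) / n))) = (m * T.card * K) * A.card / n := by ring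
    rw [h9, le_div_iff₀ h6] at h4
    nlinarith
  have h10 : (1 : ℝ) ≤ m := by exact_mod_cast hm
  nlinarith

end

/-- **Theorem.** Let `ω ∈ Ξ`, and let `Γ` be a group with a finite generating set `S` which contains
a copy of `G_ω`.  Then the Folner function of `Γ` is not at most exponential: for every `C` there is
`n ≥ 1` such that each finite nonempty `E ⊆ Γ` with `|sE △ E| / |E| < 1 / n` for all `s ∈ S` has
more than `C e^{C n}` elements.  If the runs of equal letters in `ω` are bounded, there are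
`c, C > 0` such that `|E| ≥ e^{c n log n} / C` for all `n ≥ 1` and all such `E`. -/
theorem result (ω : ℕ → Fin 3) (hω : Xi ω) (Γ : Type) [Group Γ] (ι : G ω →* Γ)
    (hι : Function.Injective ι) (S : Set Γ) (hf : S.Finite) (hS : Subgroup.closure S = ⊤) :
    (∀ C : ℝ, ∃ n : ℕ, 1 ≤ n ∧ ∀ E : Set Γ, E.Finite → E.Nonempty → IsFol S n E →
      C * Real.exp (C * n) < (E.ncard : ℝ)) ∧
    (BoundedRuns ω → ∃ c : ℝ, 0 < c ∧ ∃ C : ℝ, 0 < C ∧ ∀ n : ℕ, 1 ≤ n → ∀ E : Set Γ,
      E.Finite → E.Nonempty → IsFol S n E →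
        Real.exp (c * (n * Real.log n)) ≤ C * (E.ncard : ℝ)) := by
  classical
  have hg0 : (gens ω).Finite := by
    unfold gens
    exact Set.toFinite _
  have hgf : {s : G ω | (s : Equiv.Perm (List Bool)) ∈ gens ω}.Finite :=
    Set.Finite.preimage (Subtype.val_injective.injOn) hg0
  set T : Finset (G ω) := hgf.toFinset with hT
  have hTmem : ∀ s : G ω, (s : Equiv.Perm (List Bool)) ∈ gens ω → s ∈ T := fun s hs =>
    hgf.mem_toFinset.2 hs
  set K : ℕ := ∑ t ∈ T, wlen S (ι t) with hKd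
  have hK : ∀ t ∈ T, wlen S (ι t) ≤ K := fun t ht =>
    Finset.single_le_sum (f := fun t => wlen S (ι t)) (fun _ _ => Nat.zero_le _) ht
  set Q : ℕ := T.card * K + 1 with hQ
  have hQ1 : 1 ≤ Q := Nat.le_add_left _ _
  have key : ∀ n m : ℕ, 1 ≤ m → Q * m ≤ n → ∀ E : Set Γ, E.Finite → E.Nonempty → IsFol S n E →
      ∃ F : Set (G ω), F.Finite ∧ F.Nonempty ∧ F.ncard ≤ E.ncard ∧ IsFolner ω m F := by
    intro n m hm hn E hE hne hfol
    obtain ⟨F, h1, h2, h3, h4⟩ := piece ι hι T hS K hK hm hn hE hne hfol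
    exact ⟨F, h1, h2, h3, fun s hs => h4 s (hTmem s hs)⟩
  obtain ⟨hA, hB⟩ := LowerBounds.result ω hω
  constructor
  · intro C
    obtain ⟨m, hm, h⟩ := hA (|C| * Q)
    refine ⟨Q * m, Nat.succ_le_of_lt (by positivity), fun E hE hne hfol => ?_⟩
    obtain ⟨F, h1, h2, h3, h4⟩ := key (Q * m) m hm le_rfl E hE hne hfol
    have h5 := h F h1 h2 h4
    have h6 : (F.ncard : ℝ) ≤ E.ncard := by exact_mod_cast h3
    refine lt_of_le_of_lt ?_ (lt_of_lt_of_le h5 h6)
    have hC : C ≤ |C| := le_abs_self C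
    have hC0 : 0 ≤ |C| := abs_nonneg C
    have hQr : (1 : ℝ) ≤ Q := by exact_mod_cast hQ1
    have hm0 : (0 : ℝ) ≤ m := Nat.cast_nonneg m
    have h7 : Real.exp (C * ((Q * m : ℕ) : ℝ)) ≤ Real.exp (|C| * Q * m) := by
      apply Real.exp_le_exp.2
      push_cast
      have : C * (Q * m) ≤ |C| * (Q * m) := mul_le_mul_of_nonneg_right hC (by positivity)
      linarith
    calc C * Real.exp (C * ((Q * m : ℕ) : ℝ)) ≤ |C| * Real.exp (C * ((Q * m : ℕ) : ℝ)) :=
          mul_le_mul_of_nonneg_right hC (Real.exp_pos _).le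
      _ ≤ (|C| * Q) * Real.exp (|C| * Q * m) := by
          refine mul_le_mul ?_ h7 (Real.exp_pos _).le (by positivity)
          nlinarith
  · intro hb
    obtain ⟨c1, hc1, C1, hC1, h⟩ := hB hb
    -- the bound in logarithmic form, for large radii
    obtain ⟨N0, hN0⟩ := exists_nat_gt (max 3 (Real.exp (2 * (|Real.log C1| + 1) / c1)))
    obtain ⟨c, hc, C, hC, har⟩ := Pool.Agent.W551.FolQ.arith Q (N0 + 1) hQ1 (c1 / 2) (by positivity)
    refine ⟨c, hc, C, hC, fun n hn E hE hne hfol => ?_⟩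
    have hEpos : 1 ≤ E.ncard := (Set.ncard_pos hE).2 hne
    refine har n E.ncard (by exact_mod_cast hEpos) fun N hN hNn => ?_
    have hN1 : 1 ≤ N := by omega
    obtain ⟨F, h1, h2, h3, h4⟩ := key n N hN1 hNn E hE hne hfol
    have h5 := h N hN1 F h1 h2 h4
    have h6 : (F.ncard : ℝ) ≤ E.ncard := by exact_mod_cast h3
    have h7 : Real.exp (c1 * (N * Real.log N)) ≤ C1 * E.ncard := h5.trans
      (mul_le_mul_of_nonneg_left h6 hC1.le)
    have hE0 : (0 : ℝ) < E.ncard := by exact_mod_cast hEpos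
    have h8 : c1 * (N * Real.log N) ≤ Real.log C1 + Real.log E.ncard := by
      rw [← Real.log_mul hC1.ne' hE0.ne', Real.le_log_iff_exp_le (by positivity)]
      exact h7
    have hNr : (N0 : ℝ) ≤ N := by exact_mod_cast (by omega : N0 ≤ N)
    have hN3 : (3 : ℝ) < N := lt_of_lt_of_le (lt_of_le_of_lt (le_max_left _ _) hN0) hNr
    have hNe : Real.exp (2 * (|Real.log C1| + 1) / c1) < N :=
      lt_of_lt_of_le (lt_of_le_of_lt (le_max_right _ _) hN0) hNr
    have h9 : 2 * (|Real.log C1| + 1) / c1 < Real.log N := by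
      rw [Real.lt_log_iff_exp_lt (by linarith)]
      exact hNe
    rw [div_lt_iff₀ hc1] at h9
    have h10 : Real.log C1 ≤ |Real.log C1| := le_abs_self _
    have h11 : 0 ≤ |Real.log C1| := abs_nonneg _
    have h12 : Real.log N ≤ N * Real.log N := by
      have h13 : 0 ≤ Real.log N := Real.log_nonneg (by linarith)
      nlinarith
    have h14 : Real.log N * c1 ≤ (N * Real.log N) * c1 := mul_le_mul_of_nonneg_right h12 hc1.le
    nlinarith

end Pool.Agent.Results.MP_0b0f5a_al.AllOvergroups
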